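import Pool.Agent.U66.UP.Pg

set_option autoImplicit false

/-!
# MP_23d7af_lc: categoricity in a large cardinal and amalgamation, below a measurable

For every infinite `κ` below a measurable cardinal `χ` there is `μ ≥ χ` such that every abstract
elementary class with vocabulary and Löwenheim-Skolem number at most `κ` that is categorical in
some `lam ≥ μ` which is regular or satisfies `lam ^ μ = lam` has `ν`-amalgamation for all `ν ≥ χ`,
above `lam` as well as below.
-/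

namespace Pool.Agent.Results.MP_23d7af_lc.MeasurableCategorical

open Cardinal FirstOrder
open Pool.Agent.H288R4.LS (AEC)
open Pool.Agent.U66.UP (AP Measurable wap_ap hanf_ap reg_wap pig_wap)

universe u

theorem result :
    (∀ κ χ : Cardinal.{u}, Measurable χ → κ < χ → ∃ μ : Cardinal.{u}, χ ≤ μ ∧
      ∀ (L : FirstOrder.Language.{u, u}) (K : AEC L), K.LSat κ →
        (∃ lam : Cardinal.{u}, μ ≤ lam ∧ (lam.IsRegular ∨ lam ^ μ = lam) ∧
          K.Categorical lam) →
          ∀ ν : Cardinal.{u}, χ ≤ ν → AP K ν) ∧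
    ((∀ κ : Cardinal.{u}, ∃ χ : Cardinal.{u}, κ < χ ∧ Measurable χ) →
      ∀ κ : Cardinal.{u}, ∃ μ : Cardinal.{u}, κ < μ ∧
        ∀ (L : FirstOrder.Language.{u, u}) (K : AEC L), K.LSat κ →
          (∃ lam : Cardinal.{u}, μ ≤ lam ∧ (lam.IsRegular ∨ lam ^ μ = lam) ∧
          K.Categorical lam) →
            ∀ ν : Cardinal.{u}, μ ≤ ν → AP K ν) := by
  have h : ∀ κ χ : Cardinal.{u}, Measurable χ → κ < χ → ∃ μ : Cardinal.{u}, χ ≤ μ ∧
      ∀ (L : FirstOrder.Language.{u, u}) (K : AEC L), K.LSat κ →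
        (∃ lam : Cardinal.{u}, μ ≤ lam ∧ (lam.IsRegular ∨ lam ^ μ = lam) ∧
          K.Categorical lam) →
          ∀ ν : Cardinal.{u}, χ ≤ ν → AP K ν := by
    intro κ χ hχ h1
    obtain ⟨μ, hμ, h2⟩ := hanf_ap hχ h1
    have hpos : χ ≠ 0 := (Cardinal.aleph0_pos.trans hχ.1).ne'
    have hle : μ ≤ μ ^ χ := Cardinal.self_le_power _ (Cardinal.one_le_iff_ne_zero.2 hpos)
    refine ⟨Order.succ (μ ^ χ), (hμ.trans hle).trans (Order.le_succ _), ?_⟩
    rintro L K hK ⟨lam, h3, h4, h5⟩ ν hν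
    have h6 : μ ^ χ < lam := Order.succ_le_iff.1 h3
    refine wap_ap hK (h1.le.trans hν) (h2 L K hK ?_ ν hν)
    rcases h4 with h4 | h4
    · exact reg_wap hK hχ h1 hμ h6 h4 h5
    · have hl : lam ≠ 0 := (bot_le.trans_lt h6).ne'
      have hμ0 : (1 : Cardinal.{u}) ≤ μ := Cardinal.one_lt_aleph0.le.trans (hχ.1.le.trans hμ)
      refine pig_wap hK hχ h1 hμ (hle.trans_lt h6) (le_antisymm ?_ ?_) h5
      · calc lam ^ μ ≤ lam ^ Order.succ (μ ^ χ) :=
            Cardinal.power_le_power_left hl (hle.trans (Order.le_succ _))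
          _ = lam := h4
      · exact Cardinal.self_le_power _ hμ0
  refine ⟨h, fun hm κ => ?_⟩
  obtain ⟨χ, hlt, hχ⟩ := hm κ
  obtain ⟨μ, hμ, h2⟩ := h κ χ hχ hlt
  exact ⟨μ, hlt.trans_le hμ, fun L K hK hc ν hν => h2 L K hK hc ν (hμ.trans hν)⟩

end Pool.Agent.Results.MP_23d7af_lc.MeasurableCategorical
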